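import Mathlib
import Pool.Agent.N546.PN.Stm2

set_option autoImplicit false

/-! Part FILL of project PN (helper82): small changes of the vanishing coefficients of conics. -/

namespace Pool.Agent.N82.PN

open Pool.Agent.N546.PN

theorem one (K : Type) [NontriviallyNormedField K] (a0 a1 a2 : K) (δ : ℝ) (hδ : 0 < δ)
    (h : ∃ u v w : K, (u ≠ 0 ∨ v ≠ 0 ∨ w ≠ 0) ∧ a0 * u ^ 2 + a1 * v ^ 2 = a2 * w ^ 2) :
    ∃ w : Fin 3 → K, (w 0 ≠ 0 ∧ w 1 ≠ 0 ∧ w 2 ≠ 0) ∧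
      ((a0 ≠ 0 → w 0 = a0) ∧ (a1 ≠ 0 → w 1 = a1) ∧ (a2 ≠ 0 → w 2 = a2)) ∧
      ((a0 = 0 → ‖w 0‖ < δ) ∧ (a1 = 0 → ‖w 1‖ < δ) ∧ (a2 = 0 → ‖w 2‖ < δ)) ∧
      ∃ x y z : K, (x ≠ 0 ∨ y ≠ 0 ∨ z ≠ 0) ∧ w 0 * x ^ 2 + w 1 * y ^ 2 = w 2 * z ^ 2 := by
  obtain ⟨s, hs⟩ : ∃ s : ℝ, s = 1 + ‖a0‖ + ‖a1‖ + ‖a2‖ := ⟨_, rfl⟩
  have n0 := norm_nonneg a0
  have n1 := norm_nonneg a1
  have n2 := norm_nonneg a2
  have hs1 : 1 ≤ s := by rw [hs]; linarith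
  have hs0 : 0 < s := by linarith
  obtain ⟨η, hη, hη2⟩ := NormedField.exists_norm_lt K (r := min δ (min 1 (δ / s)))
    (lt_min hδ (lt_min one_pos (div_pos hδ hs0)))
  have hη0 : η ≠ 0 := norm_pos_iff.1 hη
  have hηδ : ‖η‖ < δ := hη2.trans_le (min_le_left _ _)
  have hη1 : ‖η‖ < 1 := hη2.trans_le ((min_le_right _ _).trans (min_le_left _ _))
  have hηs : ‖η‖ < δ / s := hη2.trans_le ((min_le_right _ _).trans (min_le_right _ _))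
  rw [lt_div_iff₀ hs0] at hηs
  have small : ∀ b : K, ‖b‖ ≤ s → ‖b * η ^ 2‖ < δ := by
    intro b hb
    rw [norm_mul, norm_pow]
    have h1 : ‖η‖ ^ 2 ≤ ‖η‖ := by nlinarith
    have h2 : ‖b‖ * ‖η‖ ^ 2 ≤ s * ‖η‖ := mul_le_mul hb h1 (by positivity) hs0.le
    linarith
  have m0 := small a0 (by rw [hs]; linarith)
  have m1 := small a1 (by rw [hs]; linarith)
  have m2 := small a2 (by rw [hs]; linarith)
  have q : η ^ 2 ≠ 0 := pow_ne_zero _ hη0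
  by_cases z0 : a0 = 0
  · by_cases z2 : a2 = 0
    · by_cases z1 : a1 = 0
      · refine ⟨![η, η, η], ⟨hη0, hη0, hη0⟩, ⟨fun h => absurd z0 h, fun h => absurd z1 h,
          fun h => absurd z2 h⟩, ⟨fun _ => hηδ, fun _ => hηδ, fun _ => hηδ⟩, 1, 0, 1,
          Or.inl one_ne_zero, ?_⟩
        change η * 1 ^ 2 + η * 0 ^ 2 = η * 1 ^ 2
        ring
      · refine ⟨![η, a1, a1 * η ^ 2], ⟨hη0, z1, mul_ne_zero z1 q⟩, ⟨fun h => absurd z0 h, fun _ => rfl,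
          fun h => absurd z2 h⟩, ⟨fun _ => hηδ, fun h => absurd h z1, fun _ => m1⟩, 0, η, 1,
          Or.inr (Or.inl hη0), ?_⟩
        change η * 0 ^ 2 + a1 * η ^ 2 = a1 * η ^ 2 * 1 ^ 2
        ring
    · by_cases z1 : a1 = 0
      · refine ⟨![a2 * η ^ 2, η, a2], ⟨mul_ne_zero z2 q, hη0, z2⟩, ⟨fun h => absurd z0 h,
          fun h => absurd z1 h, fun _ => rfl⟩, ⟨fun _ => m2, fun _ => hηδ, fun h => absurd h z2⟩,
          1, 0, η, Or.inl one_ne_zero, ?_⟩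
        change a2 * η ^ 2 * 1 ^ 2 + η * 0 ^ 2 = a2 * η ^ 2
        ring
      · refine ⟨![a2 * η ^ 2, a1, a2], ⟨mul_ne_zero z2 q, z1, z2⟩, ⟨fun h => absurd z0 h,
          fun _ => rfl, fun _ => rfl⟩, ⟨fun _ => m2, fun h => absurd h z1, fun h => absurd h z2⟩,
          1, 0, η, Or.inl one_ne_zero, ?_⟩
        change a2 * η ^ 2 * 1 ^ 2 + a1 * 0 ^ 2 = a2 * η ^ 2
        ring
  · by_cases z2 : a2 = 0
    · by_cases z1 : a1 = 0
      · refine ⟨![a0, η, a0 * η ^ 2], ⟨z0, hη0, mul_ne_zero z0 q⟩, ⟨fun _ => rfl,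
          fun h => absurd z1 h, fun h => absurd z2 h⟩, ⟨fun h => absurd h z0, fun _ => hηδ,
          fun _ => m0⟩, η, 0, 1, Or.inl hη0, ?_⟩
        change a0 * η ^ 2 + η * 0 ^ 2 = a0 * η ^ 2 * 1 ^ 2
        ring
      · refine ⟨![a0, a1, a0 * η ^ 2], ⟨z0, z1, mul_ne_zero z0 q⟩, ⟨fun _ => rfl,
          fun _ => rfl, fun h => absurd z2 h⟩, ⟨fun h => absurd h z0, fun h => absurd h z1,
          fun _ => m0⟩, η, 0, 1, Or.inl hη0, ?_⟩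
        change a0 * η ^ 2 + a1 * 0 ^ 2 = a0 * η ^ 2 * 1 ^ 2
        ring
    · by_cases z1 : a1 = 0
      · refine ⟨![a0, a2 * η ^ 2, a2], ⟨z0, mul_ne_zero z2 q, z2⟩, ⟨fun _ => rfl,
          fun h => absurd z1 h, fun _ => rfl⟩, ⟨fun h => absurd h z0, fun _ => m2,
          fun h => absurd h z2⟩, 0, 1, η, Or.inr (Or.inl one_ne_zero), ?_⟩
        change a0 * 0 ^ 2 + a2 * η ^ 2 * 1 ^ 2 = a2 * η ^ 2
        ring
      · obtain ⟨x, y, z, hx, he⟩ := h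
        exact ⟨![a0, a1, a2], ⟨z0, z1, z2⟩, ⟨fun _ => rfl, fun _ => rfl, fun _ => rfl⟩,
          ⟨fun h => absurd h z0, fun h => absurd h z1, fun h => absurd h z2⟩, x, y, z, hx, he⟩

theorem fill_ (K : Type) [NontriviallyNormedField K] : S_FILL K := by
  intro r a h δ hδ
  choose w h1 h2 h3 h4 using fun i => one K (a (i, 0)) (a (i, 1)) (a (i, 2)) δ hδ (h i)
  refine ⟨fun k => w k.1 k.2, ?_, ?_, ?_, fun i => h4 i⟩
  · rintro ⟨i, l⟩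
    fin_cases l
    · exact (h1 i).1
    · exact (h1 i).2.1
    · exact (h1 i).2.2
  · rintro ⟨i, l⟩
    fin_cases l
    · exact (h2 i).1
    · exact (h2 i).2.1
    · exact (h2 i).2.2
  · rintro ⟨i, l⟩
    fin_cases l
    · exact (h3 i).1
    · exact (h3 i).2.1
    · exact (h3 i).2.2

end Pool.Agent.N82.PN
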